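import Pool.Agent.helper80.HM.SpecD
import Pool.Agent.helper97.HM.CRM
import Pool.Agent.helper97.HM.CRN
import Pool.Agent.helper13.LN.HNP

/-! Row hm:CRH (MP_069684). -/

set_option autoImplicit false

namespace Pool.Agent.HM

open Finset Pool.Agent.helper38.Neg Pool.Agent.helper55.NT
open Pool.Agent.LN (HC)

theorem CRH (hUPM : UPM_stmt) (hEXP : EXP_stmt) (hNPC : NPC_stmt) : CRH_stmt := by
  constructor
  · intro a t ha3 hac hct
    refine ⟨fun h => (CRM hUPM hEXP a t ha3 hac hct).1 h HC Pool.Agent.LN.HNP.1 Pool.Agent.LN.HNP.2,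
      fun h => ?_⟩
    obtain ⟨c1, hc1⟩ := hac
    refine hNPC.1 ?_
    obtain ⟨p, hp⟩ := h
    refine ⟨5 * (Polynomial.X + 2) ^ c1 * p + 1, fun n => ?_⟩
    obtain ⟨s, hs, C, o, hH, hC⟩ := hp n
    obtain ⟨s', hs', C', o', hv⟩ := hEXP C o
    refine ⟨s', hs'.trans ?_, C', o', fun x => ?_⟩
    · simp only [Polynomial.eval_mul, Polynomial.eval_add, Polynomial.eval_one,
        Polynomial.eval_pow, Polynomial.eval_X, Polynomial.eval_ofNat]
      have h5 : 2 ^ a n ≤ (n + 2) ^ c1 := by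
        calc 2 ^ a n ≤ 2 ^ (c1 * lg n) := Nat.pow_le_pow_right (by norm_num) (hc1 n)
          _ = (2 ^ lg n) ^ c1 := by rw [← pow_mul, mul_comm]
          _ ≤ (n + 2) ^ c1 := Nat.pow_le_pow_left (CRM_pow_lg n) _
      gcongr
    · rw [hv]
      exact hC x
  · intro a t ha3 hac hct
    refine ⟨fun h => (CRN hUPM hEXP a t ha3 hac hct).1 h HC Pool.Agent.LN.HNP.1 Pool.Agent.LN.HNP.2,
      fun h => ?_⟩
    obtain ⟨c1, hc1⟩ := hac
    refine hNPC.2 ?_
    obtain ⟨k, hk⟩ := h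
    refine ⟨c1 + k + 3, fun n => ?_⟩
    obtain ⟨s, hs, C, o, hH, hC⟩ := hk n
    obtain ⟨s', hs', C', o', hv⟩ := hEXP C o
    refine ⟨s', hs'.trans (CRN_back n s (a n) c1 k (hc1 n) hs), C', o', fun x => ?_⟩
    rw [hv]
    exact hC x

end Pool.Agent.HM
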